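import Pool.Agent.helper84.QD.Defs

/-!
MP_747ad5_an, module QD-M: a test measure on a connected compact set of the unit disk.
-/

open Metric Set Topology Filter MeasureTheory
open scoped ENNReal ComplexConjugate

namespace Pool.Agent.helper84.QD

namespace ModM

/-! ### elementary inequalities -/

lemma log_sub_le {p q : ℝ} (hp : 0 < p) (hq : 0 < q) :
    Real.log p - Real.log q ≤ 2 * √|p - q| / √q := by
  rcases le_or_gt p q with h | h
  · have h1 : Real.log p ≤ Real.log q := Real.log_le_log hp h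
    have h2 : 0 ≤ 2 * √|p - q| / √q := by positivity
    linarith
  · have hs : 0 < √q := Real.sqrt_pos.2 hq
    have h1 : Real.log p - Real.log q = 2 * Real.log (√p / √q) := by
      rw [Real.log_div (Real.sqrt_pos.2 hp).ne' hs.ne', Real.log_sqrt hp.le, Real.log_sqrt hq.le]
      ring
    have h2 : Real.log (√p / √q) ≤ √p / √q - 1 :=
      Real.log_le_sub_one_of_pos (div_pos (Real.sqrt_pos.2 hp) hs)
    have h3 : √p ≤ √q + √|p - q| := by
      rw [abs_of_pos (by linarith)]
      apply Real.sqrt_le_iff.2 ⟨by positivity, ?_⟩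
      have e1 := Real.sq_sqrt hq.le
      have e2 := Real.sq_sqrt (show 0 ≤ p - q by linarith)
      nlinarith [Real.sqrt_nonneg q, Real.sqrt_nonneg (p - q),
        mul_nonneg (Real.sqrt_nonneg q) (Real.sqrt_nonneg (p - q))]
    rw [h1]
    have h4 : √p / √q - 1 ≤ √|p - q| / √q := by
      rw [div_sub_one hs.ne']
      gcongr
      linarith
    calc 2 * Real.log (√p / √q) ≤ 2 * (√|p - q| / √q) := by linarith
      _ = _ := by ring

lemma norm_identity (z y : ℂ) :
    ‖1 - conj y * z‖ ^ 2 = ‖z - y‖ ^ 2 + (1 - ‖z‖ ^ 2) * (1 - ‖y‖ ^ 2) := by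
  rw [← Complex.normSq_eq_norm_sq, ← Complex.normSq_eq_norm_sq, ← Complex.normSq_eq_norm_sq,
    ← Complex.normSq_eq_norm_sq]
  simp only [Complex.normSq_apply, Complex.sub_re, Complex.sub_im, Complex.mul_re, Complex.mul_im,
    Complex.conj_re, Complex.conj_im, Complex.one_re, Complex.one_im]
  ring

/-- the dominating function -/
noncomputable def Ph (v : ℝ) : ℝ := 10 * (1 + v ^ 2)⁻¹ + indicator (Icc (-1) 1) (fun v => 8 / √|v|) v

lemma Ph_nonneg (v : ℝ) : 0 ≤ Ph v := by
  unfold Ph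
  apply add_nonneg (by positivity)
  apply indicator_nonneg
  intro x _
  positivity

lemma gr_le {z y : ℂ} (hz : ‖z‖ < 1) (hy : ‖y‖ < 1) {u : ℝ} (hu : 0 < |u|) (hu1 : |u| ≤ ‖z - y‖) :
    gr z y / (1 - ‖y‖) ≤ Ph (u / (1 - ‖z‖)) / (1 - ‖z‖) := by
  set a := 1 - ‖z‖ with ha
  set b := 1 - ‖y‖ with hb
  have ha0 : 0 < a := by linarith
  have hb0 : 0 < b := by linarith
  have ha1 : a ≤ 1 := by linarith [norm_nonneg z]
  have hb1 : b ≤ 1 := by linarith [norm_nonneg y]
  have hzy : 0 < ‖z - y‖ := hu.trans_le hu1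
  have hr0 : 0 < ‖z - y‖ / a := div_pos hzy ha0
  set r := ‖z - y‖ / a with hr
  have hzr : ‖z - y‖ = r * a := by rw [hr]; field_simp
  set v := u / a with hv
  have hv0 : 0 < |v| := by rw [hv, abs_div, abs_of_pos ha0]; exact div_pos hu ha0
  have hvr : |v| ≤ r := by rw [hv, abs_div, abs_of_pos ha0, hr]; gcongr
  have hv2 : v ^ 2 ≤ r ^ 2 := by rw [← sq_abs v]; gcongr
  have hv2p : 0 < v ^ 2 := by rw [← sq_abs v]; positivity
  -- the basic bound
  have hnn : 0 < ‖1 - conj y * z‖ ^ 2 := by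
    rw [norm_identity]
    have h1 : 0 < 1 - ‖z‖ ^ 2 := by nlinarith [norm_nonneg z]
    have h2 : 0 < 1 - ‖y‖ ^ 2 := by nlinarith [norm_nonneg y]
    positivity
  have hnn' : 0 < ‖1 - conj y * z‖ := by
    rcases (norm_nonneg (1 - conj y * z)).eq_or_lt with h | h
    · rw [← h] at hnn; norm_num at hnn
    · exact h
  have hg : gr z y = 1 / 2 * Real.log (‖1 - conj y * z‖ ^ 2 / ‖z - y‖ ^ 2) := by
    rw [← div_pow, Real.log_pow]; unfold gr; push_cast; ring
  have hbase : gr z y ≤ 1 / 2 * Real.log (1 + 4 * b / (r ^ 2 * a)) := by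
    rw [hg]
    have : ‖1 - conj y * z‖ ^ 2 / ‖z - y‖ ^ 2 ≤ 1 + 4 * b / (r ^ 2 * a) := by
      rw [norm_identity, hzr]
      have h1 : 1 - ‖z‖ ^ 2 ≤ 2 * a := by nlinarith [norm_nonneg z]
      have h2 : 1 - ‖y‖ ^ 2 ≤ 2 * b := by nlinarith [norm_nonneg y]
      have h1' : 0 ≤ 1 - ‖z‖ ^ 2 := by nlinarith [norm_nonneg z]
      have h2' : 0 ≤ 1 - ‖y‖ ^ 2 := by nlinarith [norm_nonneg y]
      have h3 : (1 - ‖z‖ ^ 2) * (1 - ‖y‖ ^ 2) ≤ 4 * a * b := by nlinarith
      rw [div_le_iff₀ (by positivity)]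
      have : (1 + 4 * b / (r ^ 2 * a)) * (r * a) ^ 2 = (r * a) ^ 2 + 4 * a * b := by
        field_simp
      rw [this]; linarith
    have hpos : 0 < ‖1 - conj y * z‖ ^ 2 / ‖z - y‖ ^ 2 := by positivity
    have := Real.log_le_log hpos this
    linarith
  rw [div_le_div_iff₀ hb0 ha0]
  unfold Ph
  rcases le_or_gt (1 / 2) r with hc | hc
  · -- far
    have h1 : Real.log (1 + 4 * b / (r ^ 2 * a)) ≤ 4 * b / (r ^ 2 * a) := by
      have := Real.log_le_sub_one_of_pos (show 0 < 1 + 4 * b / (r ^ 2 * a) by positivity)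
      linarith
    have h2 : gr z y * a ≤ 2 / r ^ 2 * b := by
      have : gr z y ≤ 1 / 2 * (4 * b / (r ^ 2 * a)) := by linarith
      calc gr z y * a ≤ 1 / 2 * (4 * b / (r ^ 2 * a)) * a := by gcongr
        _ = _ := by field_simp; ring
    have h3 : 2 / r ^ 2 ≤ 10 * (1 + v ^ 2)⁻¹ := by
      rw [← div_eq_mul_inv, div_le_div_iff₀ (by positivity) (by positivity)]
      nlinarith
    have h4 : 0 ≤ indicator (Icc (-1) 1) (fun v => 8 / √|v|) v := by
      apply indicator_nonneg; intro x _; positivity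
    calc gr z y * a ≤ 2 / r ^ 2 * b := h2
      _ ≤ (10 * (1 + v ^ 2)⁻¹ + indicator (Icc (-1) 1) (fun v => 8 / √|v|) v) * b := by
        gcongr; linarith
  · -- near
    have hba : a ≤ 2 * b := by
      have : ‖y‖ ≤ ‖z‖ + ‖z - y‖ := by
        have := norm_sub_norm_le y z
        rw [norm_sub_rev] at this; linarith
      have h' : ‖z - y‖ ≤ a / 2 := by rw [hzr]; nlinarith
      linarith
    have hab : 2 * b ≤ 3 * a := by
      have : ‖z‖ ≤ ‖y‖ + ‖z - y‖ := by
        have := norm_sub_norm_le z y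
        linarith
      have h' : ‖z - y‖ ≤ a / 2 := by rw [hzr]; nlinarith
      linarith
    have hv1 : |v| ≤ 1 := by linarith
    have hvI : v ∈ Icc (-1 : ℝ) 1 := abs_le.1 hv1
    rw [indicator_of_mem hvI]
    have hs0 : 0 < √|v| := Real.sqrt_pos.2 hv0
    have h1 : 1 + 4 * b / (r ^ 2 * a) ≤ (2 / √|v|) ^ 4 := by
      have e : (2 / √|v|) ^ 4 = 16 / v ^ 2 := by
        rw [div_pow]
        have : √|v| ^ 4 = v ^ 2 := by
          rw [show (4 : ℕ) = 2 * 2 by norm_num, pow_mul, Real.sq_sqrt (abs_nonneg v), sq_abs]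
        rw [this]; norm_num
      rw [e]
      have h2 : 4 * b / (r ^ 2 * a) ≤ 6 / v ^ 2 := by
        rw [div_le_div_iff₀ (by positivity) hv2p]
        calc 4 * b * v ^ 2 ≤ 6 * a * v ^ 2 := by nlinarith
          _ ≤ 6 * a * r ^ 2 := by gcongr
          _ = _ := by ring
      have h3 : 1 ≤ 1 / v ^ 2 := by
        rw [le_div_iff₀ hv2p, ← sq_abs v]; nlinarith
      have : (16 : ℝ) / v ^ 2 = 10 * (1 / v ^ 2) + 6 / v ^ 2 := by ring
      rw [this]; linarith
    have h2 : Real.log (1 + 4 * b / (r ^ 2 * a)) ≤ 8 / √|v| := by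
      have := Real.log_le_log (show 0 < 1 + 4 * b / (r ^ 2 * a) by positivity) h1
      rw [Real.log_pow] at this
      have h3 := Real.log_le_sub_one_of_pos (show 0 < 2 / √|v| by positivity)
      push_cast at this
      have h4 : (8 : ℝ) / √|v| = 4 * (2 / √|v|) := by ring
      rw [h4]; linarith
    have h5 : 0 ≤ 8 / √|v| := by positivity
    calc gr z y * a ≤ (1 / 2 * (8 / √|v|)) * a := by gcongr; linarith
      _ ≤ (1 / 2 * (8 / √|v|)) * (2 * b) := by gcongr
      _ = (8 / √|v|) * b := by ring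
      _ ≤ (10 * (1 + v ^ 2)⁻¹ + 8 / √|v|) * b := by
        gcongr
        have : (0 : ℝ) ≤ 10 * (1 + v ^ 2)⁻¹ := by positivity
        linarith

lemma gr_sub_le {z z₀ y : ℂ} {δ : ℝ} (hδ : 0 < δ) (hz : ‖z‖ < 1) (hz₀ : ‖z₀‖ < 1)
    (hy : ‖y‖ ≤ 1 - δ) {u : ℝ} (hu : 0 < |u|) (hu1 : |u| ≤ ‖z - y‖) (hne : z₀ ≠ y) :
    gr z y ≤ gr z₀ y + 2 * √‖z - z₀‖ * (1 / √δ + 1 / √|u|) := by
  have hzy : 0 < ‖z - y‖ := hu.trans_le hu1
  have hz0y : 0 < ‖z₀ - y‖ := norm_pos_iff.2 (sub_ne_zero.2 hne)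
  have hlow : ∀ w : ℂ, ‖w‖ < 1 → δ ≤ ‖1 - conj y * w‖ := by
    intro w hw
    have h1 : ‖conj y * w‖ ≤ 1 - δ := by
      rw [norm_mul, RCLike.norm_conj]
      calc ‖y‖ * ‖w‖ ≤ ‖y‖ * 1 := by gcongr
        _ ≤ _ := by linarith
    have h2 := norm_sub_norm_le (1 : ℂ) (conj y * w)
    rw [norm_one] at h2
    linarith
  have h1 := hlow z hz
  have h2 := hlow z₀ hz₀
  have e : ∀ w : ℂ, ‖w‖ < 1 → 0 < ‖w - y‖ →
      gr w y = Real.log ‖1 - conj y * w‖ - Real.log ‖w - y‖ := by
    intro w hw hwy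
    unfold gr
    rw [Real.log_div (hδ.trans_le (hlow w hw)).ne' hwy.ne']
  rw [e z hz hzy, e z₀ hz₀ hz0y]
  have a1 := log_sub_le (hδ.trans_le h1) (hδ.trans_le h2)
  have a2 := log_sub_le hz0y hzy
  have b1 : |‖1 - conj y * z‖ - ‖1 - conj y * z₀‖| ≤ ‖z - z₀‖ := by
    refine (abs_norm_sub_norm_le _ _).trans ?_
    rw [show (1 - conj y * z) - (1 - conj y * z₀) = -(conj y * (z - z₀)) by ring, norm_neg,
      norm_mul, RCLike.norm_conj]
    calc ‖y‖ * ‖z - z₀‖ ≤ 1 * ‖z - z₀‖ := by gcongr; linarith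
      _ = _ := one_mul _
  have b2 : |‖z₀ - y‖ - ‖z - y‖| ≤ ‖z - z₀‖ := by
    refine (abs_norm_sub_norm_le _ _).trans ?_
    rw [show (z₀ - y) - (z - y) = -(z - z₀) by ring, norm_neg]
  have c1 : 2 * √|‖1 - conj y * z‖ - ‖1 - conj y * z₀‖| / √‖1 - conj y * z₀‖ ≤
      2 * √‖z - z₀‖ / √δ := by
    gcongr
  have c2 : 2 * √|‖z₀ - y‖ - ‖z - y‖| / √‖z - y‖ ≤ 2 * √‖z - z₀‖ / √|u| := by
    gcongr
  have : 2 * √‖z - z₀‖ * (1 / √δ + 1 / √|u|) =
      2 * √‖z - z₀‖ / √δ + 2 * √‖z - z₀‖ / √|u| := by ring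
  rw [this]
  linarith

lemma gr_zero_ge {y : ℂ} (hy : y ≠ 0) : 1 - ‖y‖ ≤ gr 0 y := by
  have h : 0 < ‖y‖ := norm_pos_iff.2 hy
  unfold gr
  rw [mul_zero, sub_zero, zero_sub, norm_neg, norm_one, Real.log_div one_ne_zero h.ne',
    Real.log_one]
  linarith [Real.log_le_sub_one_of_pos h]

/-! ### integrals -/

lemma sqrt_integrable {A : ℝ} (hA : 0 ≤ A) :
    IntegrableOn (fun u : ℝ => 1 / √|u|) (Icc (-A) A) := by
  have h1 : IntervalIntegrable (fun u : ℝ => 1 / √|u|) volume 0 A := by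
    have h := intervalIntegral.intervalIntegrable_rpow' (a := 0) (b := A) (r := -(1 / 2 : ℝ))
      (by norm_num)
    refine h.congr (fun u hu => ?_)
    rw [uIoc_of_le hA] at hu
    rw [abs_of_pos hu.1, Real.rpow_neg hu.1.le, ← Real.sqrt_eq_rpow, one_div]
  have h2 : IntervalIntegrable (fun u : ℝ => 1 / √|u|) volume (-A) 0 := by
    rw [IntervalIntegrable.iff_comp_neg]
    simpa using h1.symm
  have h3 := h2.trans h1
  rwa [intervalIntegrable_iff_integrableOn_Icc_of_le (by linarith)] at h3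

lemma Ph_integrable : Integrable Ph := by
  apply (integrable_inv_one_add_sq.const_mul 10).add
  rw [integrable_indicator_iff measurableSet_Icc]
  have := (sqrt_integrable (A := 1) zero_le_one).const_mul 8
  apply this.congr
  filter_upwards with u
  ring

lemma Ph_lintegral {a : ℝ} (ha : 0 < a) (x : ℝ) :
    ∫⁻ t : ℝ, ENNReal.ofReal (Ph ((x - t) / a) / a) = ENNReal.ofReal (∫ v, Ph v) := by
  have h1 : Integrable (fun t : ℝ => Ph (t / a) / a) := (Ph_integrable.comp_div ha.ne').div_const a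
  have h2 : Integrable (fun t : ℝ => Ph ((x - t) / a) / a) := h1.comp_sub_left x
  rw [← ofReal_integral_eq_lintegral_ofReal h2
    (Filter.Eventually.of_forall fun t => div_nonneg (Ph_nonneg _) ha.le)]
  congr 1
  rw [integral_sub_left_eq_self (fun t => Ph (t / a) / a) volume x, integral_div,
    Measure.integral_comp_div, abs_of_pos ha, smul_eq_mul]
  field_simp

/-- a measure on a compact set with prescribed projection -/
lemma exists_lift {K : Set ℂ} (hK : IsCompact K) {e : ℂ} (he : ‖e‖ = 1) {J : Set ℝ}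
    (hJ : MeasurableSet J) (hJK : ∀ t ∈ J, ∃ y ∈ K, (conj e * y).re = t) :
    ∃ m : Measure ℂ, m Kᶜ = 0 ∧ Measure.map (fun y => (conj e * y).re) m = volume.restrict J := by
  classical
  have hee : e * conj e = 1 := by
    rw [Complex.mul_conj, Complex.normSq_eq_norm_sq, he]; simp
  set P : ℂ → ℝ := fun y => (conj e * y).re with hP
  set Q : ℂ → ℝ := fun y => (conj e * y).im with hQ
  have hPc : Continuous P := Complex.continuous_re.comp (continuous_const.mul continuous_id)
  have hQc : Continuous Q := Complex.continuous_im.comp (continuous_const.mul continuous_id)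
  set v : ℝ → ℝ := fun t => sSup (Q '' (K ∩ P ⁻¹' {t})) with hv
  set f : ℝ → ℝ := fun t => if t ∈ J then v t else 0 with hf
  have hcpt : ∀ t, IsCompact (K ∩ P ⁻¹' {t}) := fun t =>
    hK.inter_right (isClosed_singleton.preimage hPc)
  have hvmem : ∀ t ∈ J, ∃ y ∈ K, P y = t ∧ Q y = v t := by
    intro t ht
    obtain ⟨y, hy, hyt⟩ := hJK t ht
    have hne : (Q '' (K ∩ P ⁻¹' {t})).Nonempty := ⟨Q y, y, ⟨hy, hyt⟩, rfl⟩
    obtain ⟨y', ⟨hy1, hy2⟩, hy3⟩ := ((hcpt t).image hQc).sSup_mem hne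
    exact ⟨y', hy1, hy2, hy3⟩
  have hvle : ∀ y ∈ K, Q y ≤ v (P y) := fun y hy =>
    le_csSup ((hcpt _).image hQc).bddAbove ⟨y, ⟨hy, rfl⟩, rfl⟩
  have hfm : Measurable f := by
    apply measurable_of_Ici
    intro c
    have hcl : MeasurableSet (P '' (K ∩ Q ⁻¹' Ici c)) :=
      ((hK.inter_right (isClosed_Ici.preimage hQc)).image hPc).isClosed.measurableSet
    have : f ⁻¹' Ici c = (J ∩ P '' (K ∩ Q ⁻¹' Ici c)) ∪ (Jᶜ ∩ {_t | c ≤ 0}) := by
      ext t
      by_cases ht : t ∈ J
      · simp only [hf, mem_preimage, mem_Ici, mem_union, mem_inter_iff, ht, true_and,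
          mem_compl_iff, not_true_eq_false, false_and, or_false]
        constructor
        · intro h
          obtain ⟨y, hy1, hy2, hy3⟩ := hvmem t ht
          exact ⟨y, ⟨hy1, by rw [mem_preimage, mem_Ici, hy3]; exact h⟩, hy2⟩
        · rintro ⟨y, ⟨hy1, hy2⟩, hy3⟩
          rw [← hy3]
          exact (mem_Ici.1 hy2).trans (hvle y hy1)
      · simp [hf, ht]
    rw [this]
    exact (hJ.inter hcl).union (hJ.compl.inter (MeasurableSet.const _))
  set s : ℝ → ℂ := fun t => e * ((t : ℂ) + (f t : ℂ) * Complex.I) with hs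
  have hsm : Measurable s := by
    apply Measurable.const_mul
    exact Complex.measurable_ofReal.add ((Complex.measurable_ofReal.comp hfm).mul_const _)
  have hsK : ∀ t ∈ J, s t ∈ K := by
    intro t ht
    obtain ⟨y, hy1, hy2, hy3⟩ := hvmem t ht
    have : s t = y := by
      simp only [hs, hf, if_pos ht]
      rw [← hy3, ← hy2]
      simp only [hP, hQ]
      rw [Complex.re_add_im, ← mul_assoc, hee, one_mul]
    rw [this]; exact hy1
  have hPs : ∀ t, P (s t) = t := by
    intro t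
    simp only [hP, hs]
    rw [← mul_assoc, mul_comm (conj e) e, hee, one_mul]
    simp
  refine ⟨Measure.map s (volume.restrict J), ?_, ?_⟩
  · rw [Measure.map_apply hsm hK.isClosed.measurableSet.compl, Measure.restrict_apply' hJ]
    convert measure_empty (μ := (volume : Measure ℝ))
    ext t
    simp only [mem_inter_iff, mem_preimage, mem_compl_iff, mem_empty_iff_false, iff_false,
      not_and]
    intro h1 h2
    exact h1 (hsK t h2)
  · rw [Measure.map_map hPc.measurable hsm]
    have : P ∘ s = id := by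
      ext t; exact hPs t
    rw [this, Measure.map_id]

/-! ### the measure -/

lemma measurable_gr (z : ℂ) : Measurable (gr z) := by
  unfold gr
  apply Real.measurable_log.comp
  apply Measurable.div
  · apply Continuous.measurable
    exact (continuous_const.sub (Complex.continuous_conj.mul continuous_const)).norm
  · exact (continuous_const.sub continuous_id).norm.measurable

lemma lint_shift {x : ℝ} {J : Set ℝ} (hx : |x| ≤ 1) (hJ : J ⊆ Icc (-1) 1) (hJm : MeasurableSet J)
    (g : ℝ → ℝ≥0∞) :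
    ∫⁻ t in J, g (x - t) ≤ ∫⁻ u in Icc (-2 : ℝ) 2, g u := by
  rw [← lintegral_indicator measurableSet_Icc, ← lintegral_indicator hJm,
    ← lintegral_sub_left_eq_self (μ := volume) (fun u => (Icc (-2 : ℝ) 2).indicator g u) x]
  apply lintegral_mono
  intro t
  by_cases ht : t ∈ J
  · rw [indicator_of_mem ht]
    have h1 := hJ ht
    have h2 := abs_le.1 hx
    change g (x - t) ≤ (Icc (-2 : ℝ) 2).indicator g (x - t)
    rw [indicator_of_mem]
    exact ⟨by linarith [h1.2, h2.1], by linarith [h1.1, h2.2]⟩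
  · rw [indicator_of_notMem ht]; exact bot_le

theorem main : ∃ c : ℝ, 0 < c ∧ ∀ K : Set ℂ, IsCompact K → IsPreconnected K →
    K ⊆ ball 0 1 → ∃ μ : Measure ℂ, Good K μ ∧
      ENNReal.ofReal (c * Metric.diam K) ≤ pot μ 0 := by
  set C0 : ℝ := ∫ v, Ph v with hC0
  have hC00 : 0 ≤ C0 := integral_nonneg Ph_nonneg
  set C : ℝ := C0 + 1 with hC
  have hCpos : 0 < C := by linarith
  refine ⟨1 / (2 * C), by positivity, ?_⟩
  intro K hK hKc hK1
  rcases (Metric.diam_nonneg (s := K)).eq_or_lt with hd | hd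
  · -- trivial case
    refine ⟨0, ⟨inferInstance, by simp, by simp, ?_, ?_⟩, ?_⟩
    · intro z _; simp [pot]
    · simp only [pot, lintegral_zero_measure]; exact continuousOn_const
    · rw [← hd]; simp
  -- the main case
  obtain ⟨a, ha, b, hb, hab⟩ : ∃ a ∈ K, ∃ b ∈ K, Metric.diam K / 2 < dist b a := by
    by_contra hcon
    push Not at hcon
    have := Metric.diam_le_of_forall_dist_le (s := K) (C := Metric.diam K / 2) (by positivity)
      (fun x hx y hy => hcon y hy x hx)
    linarith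
  obtain ⟨y₀, hy₀, hy₀m⟩ := hK.exists_isMaxOn ⟨a, ha⟩ continuous_norm.continuousOn
  set δ : ℝ := 1 - ‖y₀‖ with hδ
  have hδpos : 0 < δ := by
    have := hK1 hy₀
    rw [mem_ball_zero_iff] at this
    linarith
  have hyδ : ∀ y ∈ K, ‖y‖ ≤ 1 - δ := by
    intro y hy
    have : ‖y‖ ≤ ‖y₀‖ := hy₀m hy
    linarith
  have hba : 0 < ‖b - a‖ := by
    rw [← dist_eq_norm]; linarith
  set e : ℂ := (b - a) / ((‖b - a‖ : ℝ) : ℂ) with he_def
  have he : ‖e‖ = 1 := by
    rw [he_def, norm_div, Complex.norm_real, norm_norm, div_self hba.ne']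
  set P : ℂ → ℝ := fun y => (conj e * y).re with hP
  have hPc : Continuous P := Complex.continuous_re.comp (continuous_const.mul continuous_id)
  have hPle : ∀ y, |P y| ≤ ‖y‖ := by
    intro y
    refine (Complex.abs_re_le_norm _).trans ?_
    rw [norm_mul, RCLike.norm_conj, he, one_mul]
  have hPsub : ∀ y z, P y - P z = P (y - z) := by
    intro y z; simp only [hP]; rw [← Complex.sub_re]; ring_nf
  have hPab : P b - P a = ‖b - a‖ := by
    rw [hPsub]
    simp only [hP, he_def]
    have : conj ((b - a) / ((‖b - a‖ : ℝ) : ℂ)) * (b - a) = ((‖b - a‖ : ℝ) : ℂ) := by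
      rw [map_div₀, Complex.conj_ofReal, div_mul_eq_mul_div, mul_comm (conj (b - a)),
        Complex.mul_conj, Complex.normSq_eq_norm_sq]
      have : ((‖b - a‖ : ℝ) : ℂ) ≠ 0 := by exact_mod_cast hba.ne'
      field_simp
      push_cast
      ring
    rw [this, Complex.ofReal_re]
  set J : Set ℝ := Icc (P a) (P b) with hJ
  have hJm : MeasurableSet J := measurableSet_Icc
  have hJK : ∀ t ∈ J, ∃ y ∈ K, (conj e * y).re = t := by
    intro t ht
    have := hKc.intermediate_value ha hb hPc.continuousOn ht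
    obtain ⟨y, hy, hyt⟩ := this
    exact ⟨y, hy, hyt⟩
  have hJ1 : J ⊆ Icc (-1) 1 := by
    intro t ht
    obtain ⟨y, hy, hyt⟩ := hJK t ht
    have h1 := hPle y
    have h2 : ‖y‖ < 1 := by simpa using hK1 hy
    have h3 : P y = t := hyt
    rw [h3] at h1
    exact abs_le.1 (h1.trans h2.le)
  obtain ⟨m, hm0, hmP⟩ := exists_lift hK he hJm hJK
  have hmP' : Measure.map P m = volume.restrict J := hmP
  have hmuniv : m univ = ENNReal.ofReal ‖b - a‖ := by
    have : Measure.map P m univ = ENNReal.ofReal ‖b - a‖ := by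
      rw [hmP', Measure.restrict_apply_univ, hJ, Real.volume_Icc, hPab]
    rwa [Measure.map_apply hPc.measurable MeasurableSet.univ, preimage_univ] at this
  have hmfin : IsFiniteMeasure m := ⟨by rw [hmuniv]; exact ENNReal.ofReal_lt_top⟩
  have hmK : ∀ᵐ y ∂m, y ∈ K := by
    rw [ae_iff]; exact hm0
  have hmx : ∀ x : ℝ, ∀ᵐ y ∂m, P y ≠ x := by
    intro x
    rw [ae_iff]
    have h1 : Measure.map P m {x} = 0 := by
      rw [hmP']
      exact measure_mono_null (subset_refl _) (by
        rw [Measure.restrict_apply (measurableSet_singleton x)]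
        exact measure_mono_null inter_subset_left (by simp))
    rw [Measure.map_apply hPc.measurable (measurableSet_singleton x)] at h1
    convert h1 using 2
    ext y
    simp
  -- the density
  set D : ℂ → ℝ≥0∞ := fun y => ENNReal.ofReal (1 / (C * (1 - ‖y‖))) with hD
  have hDm : Measurable D := by
    apply ENNReal.measurable_ofReal.comp
    apply Measurable.div measurable_const
    exact (measurable_const.sub measurable_norm).const_mul C
  set μ : Measure ℂ := m.withDensity D with hμ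
  have hμm : μ ≪ m := withDensity_absolutelyContinuous m D
  have hpot : ∀ z, pot μ z = ∫⁻ y, D y * ENNReal.ofReal (gr z y) ∂m := by
    intro z
    unfold pot
    have hmz : Measurable (fun y => ENNReal.ofReal (gr z y)) :=
      ENNReal.measurable_ofReal.comp (measurable_gr z)
    rw [hμ, lintegral_withDensity_eq_lintegral_mul _ hDm hmz]
    rfl
  have hDle : ∀ y ∈ K, D y ≤ ENNReal.ofReal (1 / (C * δ)) := by
    intro y hy
    have := hyδ y hy
    apply ENNReal.ofReal_le_ofReal
    gcongr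
    linarith
  have hfinD : ∫⁻ y, D y ∂m ≠ ⊤ := by
    have : ∫⁻ y, D y ∂m ≤ ∫⁻ y, ENNReal.ofReal (1 / (C * δ)) ∂m := by
      apply lintegral_mono_ae
      filter_upwards [hmK] with y hy using hDle y hy
    rw [lintegral_const] at this
    refine (lt_of_le_of_lt this (ENNReal.mul_lt_top ENNReal.ofReal_lt_top
      (measure_lt_top _ _))).ne
  have hmulreal : ∀ z y, y ∈ K → D y * ENNReal.ofReal (gr z y) =
      ENNReal.ofReal (gr z y / (1 - ‖y‖) / C) := by
    intro z y hy
    have := hyδ y hy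
    have h1 : 0 < 1 - ‖y‖ := by linarith
    rw [hD]
    simp only
    rw [← ENNReal.ofReal_mul (by positivity)]
    congr 1
    field_simp
  -- bound by one
  have hle1 : ∀ z ∈ ball (0 : ℂ) 1, pot μ z ≤ 1 := by
    intro z hz
    rw [mem_ball_zero_iff] at hz
    have ha0 : 0 < 1 - ‖z‖ := by linarith
    rw [hpot]
    set g : ℝ → ℝ≥0∞ := fun t => ENNReal.ofReal (Ph ((P z - t) / (1 - ‖z‖)) / (1 - ‖z‖) / C)
      with hg
    have hPhm : Measurable Ph := by
      unfold Ph
      apply Measurable.add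
      · fun_prop
      · apply Measurable.indicator _ measurableSet_Icc
        fun_prop
    have hgm : Measurable g := by
      apply ENNReal.measurable_ofReal.comp
      apply Measurable.div_const
      apply Measurable.div_const
      apply hPhm.comp
      fun_prop
    calc ∫⁻ y, D y * ENNReal.ofReal (gr z y) ∂m ≤ ∫⁻ y, g (P y) ∂m := by
          apply lintegral_mono_ae
          filter_upwards [hmK, hmx (P z)] with y hy hyx
          rw [hmulreal z y hy]
          apply ENNReal.ofReal_le_ofReal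
          have hy1 : ‖y‖ < 1 := by simpa using hK1 hy
          have h0 : 0 < |P z - P y| := abs_pos.2 (sub_ne_zero.2 (Ne.symm hyx))
          have h1 : |P z - P y| ≤ ‖z - y‖ := by rw [hPsub]; exact hPle _
          have := gr_le hz hy1 h0 h1
          gcongr
      _ = ∫⁻ t, g t ∂(Measure.map P m) := (lintegral_map hgm hPc.measurable).symm
      _ = ∫⁻ t in J, g t := by rw [hmP']
      _ ≤ ∫⁻ t, g t := setLIntegral_le_lintegral _ _
      _ = ENNReal.ofReal (C0) / ENNReal.ofReal C := by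
          rw [hC0, ← Ph_lintegral ha0 (P z), ENNReal.div_eq_inv_mul,
            ← lintegral_const_mul']
          · apply lintegral_congr
            intro t
            simp only [hg]
            rw [ENNReal.ofReal_div_of_pos hCpos, ENNReal.div_eq_inv_mul]
          · rw [ENNReal.inv_ne_top]
            exact (ENNReal.ofReal_pos.2 hCpos).ne'
      _ ≤ 1 := by
          apply ENNReal.div_le_of_le_mul
          rw [one_mul]
          apply ENNReal.ofReal_le_ofReal
          linarith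
  -- continuity
  set B : ℝ := ∫ u in Icc (-2 : ℝ) 2, (1 / √δ + 1 / √|u|) with hB
  have hBi : IntegrableOn (fun u : ℝ => 1 / √δ + 1 / √|u|) (Icc (-2) 2) := by
    apply Integrable.add
    · exact integrableOn_const (by simp)
    · exact sqrt_integrable (by norm_num)
  have hB0 : 0 ≤ B := integral_nonneg (fun u => by positivity)
  have hcomp : ∀ z ∈ ball (0 : ℂ) 1, ∀ z₀ ∈ ball (0 : ℂ) 1,
      pot μ z ≤ pot μ z₀ + ENNReal.ofReal (2 / (C * δ) * B * √‖z - z₀‖) := by
    intro z hz z₀ hz₀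
    rw [mem_ball_zero_iff] at hz hz₀
    set κ : ℝ := 2 / (C * δ) * √‖z - z₀‖ with hκ
    have hκ0 : 0 ≤ κ := by positivity
    set g : ℝ → ℝ≥0∞ := fun u => ENNReal.ofReal (κ * (1 / √δ + 1 / √|u|)) with hg
    have hgm : Measurable g := by
      apply ENNReal.measurable_ofReal.comp
      fun_prop
    rw [hpot, hpot]
    have hstep : ∫⁻ y, D y * ENNReal.ofReal (gr z y) ∂m ≤
        ∫⁻ y, (D y * ENNReal.ofReal (gr z₀ y) + g (P z - P y)) ∂m := by
      apply lintegral_mono_ae
      filter_upwards [hmK, hmx (P z), hmx (P z₀)] with y hy hyx hyx0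
      have h0 : 0 < |P z - P y| := abs_pos.2 (sub_ne_zero.2 (Ne.symm hyx))
      have h1 : |P z - P y| ≤ ‖z - y‖ := by rw [hPsub]; exact hPle _
      have h2 : z₀ ≠ y := by rintro rfl; exact hyx0 rfl
      have h3 := gr_sub_le hδpos hz hz₀ (hyδ y hy) h0 h1 h2
      have h4 : ENNReal.ofReal (gr z y) ≤ ENNReal.ofReal (gr z₀ y) +
          ENNReal.ofReal (2 * √‖z - z₀‖ * (1 / √δ + 1 / √|P z - P y|)) :=
        (ENNReal.ofReal_le_ofReal h3).trans ENNReal.ofReal_add_le
      calc D y * ENNReal.ofReal (gr z y) ≤ D y * (ENNReal.ofReal (gr z₀ y) +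
          ENNReal.ofReal (2 * √‖z - z₀‖ * (1 / √δ + 1 / √|P z - P y|))) := by gcongr
        _ = D y * ENNReal.ofReal (gr z₀ y) + D y *
          ENNReal.ofReal (2 * √‖z - z₀‖ * (1 / √δ + 1 / √|P z - P y|)) := mul_add _ _ _
        _ ≤ D y * ENNReal.ofReal (gr z₀ y) + ENNReal.ofReal (1 / (C * δ)) *
          ENNReal.ofReal (2 * √‖z - z₀‖ * (1 / √δ + 1 / √|P z - P y|)) := by
            gcongr; exact hDle y hy
        _ = D y * ENNReal.ofReal (gr z₀ y) + g (P z - P y) := by
            rw [← ENNReal.ofReal_mul (p := 1 / (C * δ)) (by positivity)]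
            simp only [hg, hκ]
            congr 2
            ring
    refine hstep.trans ?_
    have hmz : Measurable (fun y => D y * ENNReal.ofReal (gr z₀ y)) :=
      hDm.mul (ENNReal.measurable_ofReal.comp (measurable_gr z₀))
    rw [lintegral_add_left hmz]
    gcongr
    calc ∫⁻ y, g (P z - P y) ∂m = ∫⁻ t, g (P z - t) ∂(Measure.map P m) :=
          (lintegral_map (hgm.comp (measurable_const.sub measurable_id)) hPc.measurable).symm
      _ = ∫⁻ t in J, g (P z - t) := by rw [hmP']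
      _ ≤ ∫⁻ u in Icc (-2 : ℝ) 2, g u := lint_shift ((hPle z).trans hz.le) hJ1 hJm g
      _ = ENNReal.ofReal (∫ u in Icc (-2 : ℝ) 2, κ * (1 / √δ + 1 / √|u|)) := by
          rw [ofReal_integral_eq_lintegral_ofReal (hBi.const_mul κ)
            (Filter.Eventually.of_forall fun u => by positivity)]
      _ = ENNReal.ofReal (2 / (C * δ) * B * √‖z - z₀‖) := by
          rw [integral_const_mul, ← hB, hκ]
          congr 1; ring
  have hfin : ∀ z ∈ ball (0 : ℂ) 1, pot μ z ≠ ⊤ := fun z hz =>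
    (lt_of_le_of_lt (hle1 z hz) ENNReal.one_lt_top).ne
  have hcompR : ∀ z ∈ ball (0 : ℂ) 1, ∀ z₀ ∈ ball (0 : ℂ) 1,
      (pot μ z).toReal ≤ (pot μ z₀).toReal + 2 / (C * δ) * B * √‖z - z₀‖ := by
    intro z hz z₀ hz₀
    have h1 := ENNReal.toReal_mono (ENNReal.add_ne_top.2 ⟨hfin z₀ hz₀, ENNReal.ofReal_ne_top⟩)
      (hcomp z hz z₀ hz₀)
    rwa [ENNReal.toReal_add (hfin z₀ hz₀) ENNReal.ofReal_ne_top,
      ENNReal.toReal_ofReal (by positivity)] at h1
  refine ⟨μ, ⟨?_, ?_, ?_, hle1, ?_⟩, ?_⟩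
  · exact isFiniteMeasure_withDensity hfinD
  · exact hμm hm0
  · intro z
    apply hμm
    have := hmx (P z)
    rw [ae_iff] at this
    refine measure_mono_null ?_ this
    intro y hy
    rw [mem_singleton_iff] at hy
    simp [hy]
  · intro z₀ hz₀
    have hlim : Tendsto (fun z : ℂ => 2 / (C * δ) * B * √‖z - z₀‖) (𝓝[ball 0 1] z₀) (𝓝 0) := by
      have hc : Continuous (fun z : ℂ => 2 / (C * δ) * B * √‖z - z₀‖) := by fun_prop
      have := hc.tendsto z₀
      simp only [sub_self, norm_zero, Real.sqrt_zero, mul_zero] at this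
      exact this.mono_left nhdsWithin_le_nhds
    rw [ContinuousWithinAt, tendsto_iff_dist_tendsto_zero]
    apply squeeze_zero' (Filter.Eventually.of_forall fun _ => dist_nonneg) _ hlim
    filter_upwards [self_mem_nhdsWithin] with z hz
    rw [Real.dist_eq, abs_le]
    have h1 := hcompR z hz z₀ hz₀
    have h2 := hcompR z₀ hz₀ z hz
    rw [norm_sub_rev z₀ z] at h2
    constructor <;> linarith
  · rw [hpot]
    calc ENNReal.ofReal (1 / (2 * C) * Metric.diam K) ≤ ENNReal.ofReal (1 / C * ‖b - a‖) := by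
          apply ENNReal.ofReal_le_ofReal
          rw [dist_eq_norm] at hab
          have : 1 / (2 * C) * Metric.diam K = 1 / C * (Metric.diam K / 2) := by
            field_simp
          rw [this]
          gcongr
      _ = ∫⁻ _y, ENNReal.ofReal (1 / C) ∂m := by
          rw [lintegral_const, hmuniv, ENNReal.ofReal_mul (by positivity)]
      _ ≤ ∫⁻ y, D y * ENNReal.ofReal (gr 0 y) ∂m := by
          apply lintegral_mono_ae
          filter_upwards [hmK, hmx 0] with y hy hy0
          rw [hmulreal 0 y hy]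
          apply ENNReal.ofReal_le_ofReal
          have hy0' : y ≠ 0 := by
            rintro rfl
            apply hy0; simp [hP]
          have h1 := gr_zero_ge hy0'
          have h2 := hyδ y hy
          have h3 : 1 ≤ gr 0 y / (1 - ‖y‖) := by
            rw [le_div_iff₀ (by linarith)]; linarith
          gcongr

end ModM

theorem exists_measure : ∃ c : ℝ, 0 < c ∧ ∀ K : Set ℂ, IsCompact K → IsPreconnected K →
    K ⊆ ball 0 1 → ∃ μ : Measure ℂ, Good K μ ∧ ENNReal.ofReal (c * Metric.diam K) ≤ pot μ 0 :=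
  ModM.main

end Pool.Agent.helper84.QD
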